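import Pool.Agent.H17.CNX.XAP

/-!
# Row XGA, part 2: rational functions invariant under the translations by the values of `ι`
-/

set_option autoImplicit false

namespace Pool.CND

open Polynomial

theorem xga_inv (p : ℕ) (k L G : Type) [Field k] [CharP k p] [Field L] [Algebra k L] [Group G]
    [Finite G] (hp : p.Prime) (ι : G → k) (hι : ∀ g h : G, ι (g * h) = ι g + ι h)
    (T : G → (L →ₐ[k] L)) (x : L) (hx : ∀ g, T g x = x + algebraMap k L (ι g)) (z : L)
    (hz : z ∈ IntermediateField.adjoin k {x}) (hT : ∀ g, T g z = z) :
    z ∈ IntermediateField.adjoin k {aeval x (Apol ι)} := by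
  classical
  have : Fact p.Prime := ⟨hp⟩
  obtain ⟨d, e, hcard, he, he0, hA, hAc⟩ := xap_thm p k G ι hp inferInstance hι
  set t : L := aeval x (Apol ι) with ht
  set E := IntermediateField.adjoin k {t} with hE
  have hι1 : ι 1 = 0 := by
    have := hι 1 1
    rw [mul_one] at this
    linear_combination -this
  have hTt : ∀ g, T g t = t := by
    intro g
    have h1 := congrArg (aeval x) (hAc g)
    rw [aeval_comp, map_add, aeval_X, aeval_C] at h1
    rw [ht, ← Polynomial.aeval_algHom_apply, hx g]
    exact h1
  have hTE : ∀ g, ∀ e ∈ E, T g e = e := by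
    intro g e he
    rw [hE] at he
    induction he using IntermediateField.adjoin_induction with
    | mem e he =>
      rw [Set.mem_singleton_iff] at he
      rw [he]
      exact hTt g
    | algebraMap u => exact (T g).commutes u
    | add a b _ _ ha hb => rw [map_add, ha, hb]
    | inv a _ ha => rw [map_inv₀, ha]
    | mul a b _ _ ha hb => rw [map_mul, ha, hb]
  have htE : t ∈ E := IntermediateField.subset_adjoin k _ (Set.mem_singleton _)
  set V := (Set.finite_range ι).toFinset with hV
  have hVcard : 0 < V.card := by
    rw [Finset.card_pos]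
    exact ⟨ι 1, by rw [hV, Set.Finite.mem_toFinset]; exact ⟨1, rfl⟩⟩
  have hAmon : (Apol ι).Monic := monic_prod_of_monic _ _ (fun v _ => monic_X_sub_C v)
  have hAdeg : (Apol ι).natDegree = V.card := by
    rw [Apol, natDegree_prod_of_monic _ _ (fun v _ => monic_X_sub_C v)]
    rw [Finset.sum_congr rfl fun v _ => natDegree_X_sub_C v]
    simp [hV]
  let AE : Polynomial E := (Apol ι).map (algebraMap k E)
  have hAEmon : AE.Monic := hAmon.map _
  have hAEdeg : AE.natDegree = V.card := by
    rw [← hAdeg]
    exact natDegree_map _
  let m : Polynomial E := AE - C ⟨t, htE⟩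
  have hmdeg : m.natDegree = V.card := by
    rw [← hAEdeg]
    exact natDegree_sub_C
  have hmmon : m.Monic := by
    apply hAEmon.sub_of_left
    rw [degree_eq_natDegree hAEmon.ne_zero, hAEdeg]
    refine lt_of_le_of_lt degree_C_le ?_
    exact_mod_cast hVcard
  have hmx : aeval x m = 0 := by
    show aeval x (AE - C _) = 0
    rw [map_sub, aeval_C]
    have h1 : aeval x AE = t := by
      show aeval x ((Apol ι).map (algebraMap k E)) = t
      rw [aeval_map_algebraMap]
    rw [h1]
    exact sub_self t
  have hxint : IsIntegral E x := ⟨m, hmmon, by rwa [aeval_def] at hmx⟩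
  have hz2 : z ∈ IntermediateField.adjoin E {x} := by
    have h1 : IntermediateField.adjoin k {x} ≤
        (IntermediateField.adjoin E {x}).restrictScalars k := by
      rw [IntermediateField.adjoin_le_iff]
      intro w hw
      exact IntermediateField.subset_adjoin E _ hw
    exact h1 hz
  have hz3 : ∃ q : Polynomial E, aeval x q = z := by
    have h1 : z ∈ (IntermediateField.adjoin E {x}).toSubalgebra := hz2
    rw [IntermediateField.adjoin_simple_toSubalgebra_of_isAlgebraic hxint.isAlgebraic,
      Algebra.adjoin_singleton_eq_range_aeval] at h1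
    exact h1
  obtain ⟨q, hq⟩ := hz3
  set r := q %ₘ m with hr
  have hrx : aeval x r = z := by
    have h1 := Polynomial.modByMonic_add_div q m
    have h2 := congrArg (aeval x) h1
    rw [map_add, map_mul, hmx, zero_mul, add_zero, hq] at h2
    exact h2
  have hrdeg : r.natDegree < V.card := by
    rw [← hmdeg]
    apply Polynomial.natDegree_modByMonic_lt q hmmon
    intro h
    have : m.natDegree = 0 := by rw [h]; simp
    rw [hmdeg] at this
    omega
  have hTl : ∀ g : G, aeval (x + algebraMap k L (ι g)) r = z := by
    intro g
    have h1 := congrArg (T g) hrx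
    rw [hT, aeval_eq_sum_range, map_sum] at h1
    rw [aeval_eq_sum_range, ← h1]
    refine Finset.sum_congr rfl fun i _ => ?_
    have h2 : T g (algebraMap E L (r.coeff i)) = algebraMap E L (r.coeff i) :=
      hTE g _ (r.coeff i).2
    rw [Algebra.smul_def, Algebra.smul_def, map_mul, map_pow, hx, h2]
  have hpoly : r.map (algebraMap E L) - C z = 0 := by
    apply Polynomial.eq_zero_of_natDegree_lt_card_of_eval_eq_zero _
      (f := fun v : V => x + algebraMap k L v.1)
    · intro a b hab
      have h1 : algebraMap k L a.1 = algebraMap k L b.1 := add_left_cancel hab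
      exact Subtype.ext ((algebraMap k L).injective h1)
    · intro v
      obtain ⟨g, hg⟩ := (Set.Finite.mem_toFinset (Set.finite_range ι)).1 v.2
      rw [eval_sub, eval_C, eval_map_algebraMap, ← hg, hTl, sub_self]
    · rw [Fintype.card_coe]
      rw [natDegree_sub_C]
      exact lt_of_le_of_lt natDegree_map_le hrdeg
  have h0 := congrArg (fun f : Polynomial L => f.coeff 0) hpoly
  simp only [coeff_sub, coeff_map, coeff_C_zero, coeff_zero] at h0
  have h1 : z = ((r.coeff 0 : E) : L) := (sub_eq_zero.mp h0).symm
  rw [h1]
  exact (r.coeff 0).2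

end Pool.CND
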