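import Pool.Agent.H37.CNX.Stmts
import Pool.Agent.H62.CNP.GAL
import Pool.Agent.H23.CNX.XgaFld
import Pool.Agent.H23.CNX.XgaInv

/-!
# Row XGA: the field `k(x)(Y)` with the action of `G`
-/

set_option autoImplicit false

namespace Pool.CND

open Polynomial Finset

theorem xga_thm : S_XGA := by
  intro p k G _ _ _ _ M n φ S ι C F hp hXD hXC hne
  haveI : Fact p.Prime := ⟨hp⟩
  haveI hcharK : CharP (RatFunc k) p :=
    charP_of_injective_algebraMap (algebraMap k (RatFunc k)).injective p
  -- the automorphisms of `k(x)`
  let θ : G → (RatFunc k ≃+* RatFunc k) := fun g =>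
    IsFractionRing.ringEquivOfRingEquiv (A := Polynomial k) (B := Polynomial k)
      (Polynomial.algEquivAevalXAddC (ι g)).toRingEquiv
  have hθ : ∀ (g : G) (q : Polynomial k), θ g (algebraMap (Polynomial k) (RatFunc k) q) =
      algebraMap (Polynomial k) (RatFunc k) (q.comp (X + Polynomial.C (ι g))) := by
    intro g q
    have h1 := IsFractionRing.ringEquivOfRingEquiv_algebraMap (K := RatFunc k) (L := RatFunc k)
      (Polynomial.algEquivAevalXAddC (ι g)).toRingEquiv q
    refine h1.trans ?_
    congr 1
  have hcast : ∀ c : ZMod p, ZMod.castHom (dvd_refl p) (RatFunc k) c =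
      algebraMap (Polynomial k) (RatFunc k) (Polynomial.C (fp k c)) := by
    intro c
    rw [gal_cast (K := k)]
    rfl
  obtain ⟨L, iL, iA, y, hfd, hsep, hy, hgen, hfix, hT⟩ := xga_field p (RatFunc k) n
    (fun i => algebraMap (Polynomial k) (RatFunc k) (F i))
    (fun ℓ hℓ u hu => by
      apply hne ℓ hℓ u
      rw [hu, map_sum]
      refine Finset.sum_congr rfl fun j _ => ?_
      rw [map_mul, hcast])
  letI iAk : Algebra k L := ((algebraMap (RatFunc k) L).comp (algebraMap k (RatFunc k))).toAlgebra
  haveI iST : IsScalarTower k (RatFunc k) L := IsScalarTower.of_algebraMap_eq (fun _ => rfl)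
  haveI hcharL : CharP L p := charP_of_injective_algebraMap (algebraMap k L).injective p
  have hcastL : ∀ c : ZMod p, algebraMap (RatFunc k) L (ZMod.castHom (dvd_refl p) (RatFunc k) c) =
      algebraMap k L (fp k c) := by
    intro c
    rw [gal_cast (K := k)]
    rfl
  set x : L := algebraMap (RatFunc k) L RatFunc.X with hxdef
  have hpoly : ∀ q : Polynomial k, algebraMap (RatFunc k) L (algebraMap (Polynomial k) _ q) =
      aeval x q := by
    intro q
    rw [← RatFunc.aeval_X_left_eq_algebraMap, ← Polynomial.aeval_algebraMap_apply]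
  have hfpadd : ∀ a b : ZMod p, fp k (a + b) = fp k a + fp k b := fun a b =>
    map_add (ZMod.castHom (dvd_refl p) k) a b
  have hfpmul : ∀ a b : ZMod p, fp k (a * b) = fp k a * fp k b := fun a b =>
    map_mul (ZMod.castHom (dvd_refl p) k) a b
  have hfpsum : ∀ f : Fin n → ZMod p, fp k (∑ j, f j) = ∑ j, fp k (f j) := fun f =>
    map_sum (ZMod.castHom (dvd_refl p) k) f _
  have hfp0 : fp k (0 : ZMod p) = 0 := map_zero (ZMod.castHom (dvd_refl p) k)
  have hfp1 : fp k (1 : ZMod p) = 1 := map_one (ZMod.castHom (dvd_refl p) k)
  -- the group data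
  have hS1 : S 1 = 1 := hXD.S_one 1 M.one_mem
  have hι1 : ι 1 = 0 := (hXD.ι_ker 1).2 M.one_mem
  have hSS : ∀ g, S g * S g⁻¹ = 1 := fun g => by
    rw [← hXD.S_mul, inv_mul_cancel, hS1]
  have hex := fun g => hT (θ g) (fun i => algebraMap (Polynomial k) (RatFunc k) (C g i)) (S g) (S g⁻¹)
    (hSS g) (fun i => by
      have h1 := congrFun (hXC.F_eq g) i
      rw [hθ, h1, Pi.add_apply, Matrix.mulVec, dotProduct, map_add, map_sum, map_sub, map_pow]
      congr 1
      refine Finset.sum_congr rfl fun j _ => ?_
      rw [map_mul, hcast]
      rfl)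
  choose T hTu hTy using hex
  have hTx0 : ∀ g, T g x = x + algebraMap k L (ι g) := by
    intro g
    have h1 := hθ g (X : Polynomial k)
    rw [X_comp, RatFunc.algebraMap_X] at h1
    rw [hxdef, hTu, h1, hpoly, map_add, aeval_X, aeval_C]
  let Tk : G → (L →ₐ[k] L) := fun g =>
    { T g with
      commutes' := by
        intro c
        show T g (algebraMap k L c) = algebraMap k L c
        have h1 := hθ g (Polynomial.C c)
        rw [C_comp] at h1
        have h2 : algebraMap k L c =
            algebraMap (RatFunc k) L (algebraMap (Polynomial k) (RatFunc k) (Polynomial.C c)) := by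
          rw [hpoly, aeval_C]
        rw [h2, hTu, h1] }
  have hTx : ∀ g, Tk g x = x + algebraMap k L (ι g) := hTx0
  have hTky : ∀ g i, Tk g (y i) = (∑ j, algebraMap k L (fp k (S g i j)) * y j) + aeval x (C g i) := by
    intro g i
    show T g (y i) = _
    rw [hTy g i, hpoly]
    congr 1
    refine Finset.sum_congr rfl fun j _ => ?_
    rw [hcastL]
  have hmatone : ∀ i, (∑ j, algebraMap k L (fp k ((1 : Matrix (Fin n) (Fin n) (ZMod p)) i j)) * y j) =
      y i := by
    intro i
    have : ∀ j, algebraMap k L (fp k ((1 : Matrix (Fin n) (Fin n) (ZMod p)) i j)) * y j =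
        if i = j then y j else 0 := by
      intro j
      rw [Matrix.one_apply]
      split_ifs with h
      · rw [hfp1, map_one, one_mul]
      · rw [hfp0, map_zero, zero_mul]
    rw [Finset.sum_congr rfl fun j _ => this j]
    simp
  have hTM : ∀ a : M, (∀ i, Tk a (y i) = y i + algebraMap k L (fp k (Multiplicative.toAdd (φ a) i))) ∧
      Tk a x = x := by
    intro a
    refine ⟨fun i => ?_, ?_⟩
    · rw [hTky, hXD.S_one a a.2, hmatone, hXC.C_M a]
      show y i + aeval x (Polynomial.C _) = _
      rw [aeval_C]
    · rw [hTx, (hXD.ι_ker a).2 a.2, map_zero, add_zero]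
  let f : G →* (L →ₐ[k] L) :=
    { toFun := Tk
      map_one' := by
        apply gal_ext hgen
        · have h1 := (hTM 1).2
          exact h1
        · intro i
          have h1 := (hTM 1).1 i
          rw [map_one] at h1
          have h2 : fp k (Multiplicative.toAdd (1 : Multiplicative (Fin n → ZMod p)) i) = 0 := hfp0
          rw [h2, map_zero, add_zero] at h1
          exact h1
      map_mul' := by
        intro g h
        apply gal_ext hgen
        · show Tk (g * h) x = Tk g (Tk h x)
          rw [hTx, hTx, map_add, hTx, AlgHom.commutes, hXD.ι_mul, map_add]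
          ring
        · intro i
          show Tk (g * h) (y i) = Tk g (Tk h (y i))
          have h1 : C (g * h) i = (∑ j, Polynomial.C (fp k (S h i j)) * C g j) +
              (C h i).comp (X + Polynomial.C (ι g)) := by
            rw [hXC.C_mul g h]
            rfl
          have h2 : Tk g (aeval x (C h i)) = aeval x ((C h i).comp (X + Polynomial.C (ι g))) := by
            rw [← Polynomial.aeval_algHom_apply, hTx, aeval_comp, map_add, aeval_X, aeval_C]
          have h3 : ∀ j, Tk g (algebraMap k L (fp k (S h i j)) * y j) =
              (∑ r, algebraMap k L (fp k (S h i j * S g j r)) * y r) +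
                algebraMap k L (fp k (S h i j)) * aeval x (C g j) := by
            intro j
            rw [map_mul, AlgHom.commutes, hTky g j, mul_add, Finset.mul_sum]
            congr 1
            refine Finset.sum_congr rfl fun r _ => ?_
            rw [hfpmul, map_mul]
            ring
          have h4 : ∀ r, algebraMap k L (fp k (S (g * h) i r)) * y r =
              ∑ j, algebraMap k L (fp k (S h i j * S g j r)) * y r := by
            intro r
            rw [hXD.S_mul, Matrix.mul_apply, hfpsum, map_sum, Finset.sum_mul]
          rw [hTky (g * h), hTky h, map_add, map_sum, h2, h1, map_add, map_sum,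
            Finset.sum_congr rfl fun j _ => h3 j, Finset.sum_add_distrib,
            Finset.sum_congr rfl fun r _ => h4 r, Finset.sum_comm]
          have h5 : ∀ j, aeval x (Polynomial.C (fp k (S h i j)) * C g j) =
              algebraMap k L (fp k (S h i j)) * aeval x (C g j) := fun j => by
            rw [map_mul, aeval_C]
          rw [Finset.sum_congr rfl fun j _ => h5 j]
          ring }
  let ρ : G →* (L ≃ₐ[k] L) := (AlgEquiv.algHomUnitsEquiv k L).toMonoidHom.comp f.toHomUnits
  have hρ : ∀ g z, ρ g z = Tk g z := fun g z => rfl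
  have hfixM : ∀ z : L, (∀ a ∈ M, ρ a z = z) → z ∈ IntermediateField.adjoin k {x} := by
    intro z hz
    obtain ⟨u, hu⟩ := hfix z (by
      intro σ
      have h1 : ∀ i, ∃ c : ZMod p, σ (y i) = y i + ZMod.castHom (dvd_refl p) L c := by
        intro i
        apply gal_root
        rw [← map_pow, ← map_sub, hy i]
        exact σ.commutes _
      choose w hw using h1
      let a : M := φ.symm (Multiplicative.ofAdd w)
      have h2 : (σ.restrictScalars k).toAlgHom = Tk a := by
        apply gal_ext hgen
        · rw [(hTM a).2]
          exact σ.commutes _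
        · intro i
          rw [(hTM a).1 i]
          have h3 : Multiplicative.toAdd (φ a) = w := by
            show Multiplicative.toAdd (φ (φ.symm (Multiplicative.ofAdd w))) = w
            rw [MulEquiv.apply_symm_apply]
            rfl
          rw [h3]
          show σ (y i) = _
          rw [hw i, gal_cast (K := k)]
          rfl
      have h4 : Tk a z = z := hz a a.2
      rw [← h2] at h4
      exact h4)
    rw [← hu]
    exact gal_rat_mem u
  refine ⟨L, iL, iAk, x, y, ρ, ?_, ?_, hTx, hTky, hfixM, ?_, ?_, ?_⟩
  · rw [hxdef]
    exact (transcendental_algebraMap_iff (algebraMap (RatFunc k) L).injective).mpr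
      RatFunc.transcendental_X
  · intro i
    rw [hy i, hpoly]
  · intro z hz
    exact xga_inv p k L G hp ι hXD.ι_mul Tk x hTx z (hfixM z fun a _ => hz a) hz
  · let j : RatFunc k →+* IntermediateField.adjoin k {x} :=
      RingHom.codRestrict (algebraMap (RatFunc k) L) (IntermediateField.adjoin k {x}) gal_rat_mem
    letI : Algebra (RatFunc k) (IntermediateField.adjoin k {x}) := j.toAlgebra
    haveI : IsScalarTower (RatFunc k) (IntermediateField.adjoin k {x}) L :=
      IsScalarTower.of_algebraMap_eq (fun _ => rfl)
    exact Module.Finite.of_restrictScalars_finite (RatFunc k) (IntermediateField.adjoin k {x}) L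
  · let j : RatFunc k →+* IntermediateField.adjoin k {x} :=
      RingHom.codRestrict (algebraMap (RatFunc k) L) (IntermediateField.adjoin k {x}) gal_rat_mem
    letI : Algebra (RatFunc k) (IntermediateField.adjoin k {x}) := j.toAlgebra
    haveI : IsScalarTower (RatFunc k) (IntermediateField.adjoin k {x}) L :=
      IsScalarTower.of_algebraMap_eq (fun _ => rfl)
    exact Algebra.isSeparable_tower_top_of_isSeparable (RatFunc k)
      (IntermediateField.adjoin k {x}) L

end Pool.CND
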